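import Pool.Agent.H312Gat.A8
set_option linter.unusedVariables false
set_option linter.unusedSectionVars false
open Set Filter Topology
open scoped ENNReal

namespace Pool.Agent.Results.MP_290f58_an.NoHigherGateaux

/-- the real Banach space `ℓ_p` -/
abbrev ell (p : ℝ≥0∞) : Type := lp (fun _ : ℕ => ℝ) p

section
variable {X : Type*} [NormedAddCommGroup X] [NormedSpace ℝ X]

/-- The iterated directional derivative `D_{h 0} D_{h 1} ⋯ D_{h (j-1)} f`, where
`D_v g (y) = lim_{t → 0} (g (y + t v) - g y) / t` is Mathlib's `lineDeriv ℝ g y v`. -/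
noncomputable def iterD (f : X → ℝ) : (j : ℕ) → (Fin j → X) → X → ℝ
  | 0, _ => f
  | j + 1, h => fun y => lineDeriv ℝ (iterD f j (Fin.tail h)) y (h 0)

/-- `f` is `k` times Gateaux differentiable on `U`: for `1 ≤ j + 1 ≤ k` and `x ∈ U` all iterated
directional derivatives `D_{h 0} ⋯ D_{h j} f (x)` exist and form a bounded `(j+1)`-linear form
of `h`. -/
def GateauxDiffOn (k : ℕ) (f : X → ℝ) (U : Set X) : Prop :=
  ∀ j < k, ∀ x ∈ U,
    (∀ h : Fin (j + 1) → X, LineDifferentiableAt ℝ (iterD f j (Fin.tail h)) x (h 0)) ∧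
    ∃ M : ContinuousMultilinearMap ℝ (fun _ : Fin (j + 1) => X) ℝ, ∀ h, M h = iterD f (j + 1) h x

/-- `N` is an equivalent norm on `X`. -/
structure IsEquivNorm (N : X → ℝ) : Prop where
  add_le : ∀ x y, N (x + y) ≤ N x + N y
  smul : ∀ (t : ℝ) (x : X), N (t • x) = |t| * N x
  equiv : ∃ c C : ℝ, 0 < c ∧ 0 < C ∧ ∀ x, c * ‖x‖ ≤ N x ∧ N x ≤ C * ‖x‖

end

open H312Gat in
theorem lineDerivs_of {p : ℝ≥0∞} [Fact (1 ≤ p)] [Fact (p ≠ ⊤)] {f : ell p → ℝ} {n : ℕ} {U : Set (ell p)}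
    (hU : IsOpen U) (h : GateauxDiffOn n f U) :
    ∃ M : LP p → (j : ℕ) → ML p j, LineDerivs f n U M := by
  classical
  have hex : ∀ z : ell p, ∀ j : ℕ, ∃ M : ContinuousMultilinearMap ℝ (fun _ : Fin j => ell p) ℝ,
      z ∈ U → j ≤ n → ∀ v : ell p, M (fun _ => v) = iterD f j (fun _ => v) z := by
    intro z j
    rcases j with _ | j
    · exact ⟨ContinuousMultilinearMap.constOfIsEmpty ℝ _ (f z), fun _ _ v => rfl⟩
    · by_cases hz : z ∈ U ∧ j + 1 ≤ n
      · obtain ⟨M, hM⟩ := (h j (by omega) z hz.1).2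
        exact ⟨M, fun _ _ v => hM _⟩
      · exact ⟨0, fun h1 h2 => absurd ⟨h1, h2⟩ hz⟩
  choose M hM using hex
  refine ⟨M, fun z hz u => hM z 0 hz (Nat.zero_le _) u, fun z hz v j hj => ?_⟩
  have h1 := (h j hj z hz).1 (fun _ => v)
  have h2 : HasDerivAt (fun t : ℝ => iterD f j (fun _ => v) (z + t • v)) (iterD f (j + 1) (fun _ => v) z) 0 :=
    h1.hasLineDerivAt
  rw [dg_def, hM z (j + 1) hz hj v]
  refine h2.congr_of_eventuallyEq ?_
  have h3 : ∀ᶠ t : ℝ in 𝓝 0, z + t • v ∈ U := by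
    have hc : Continuous (fun t : ℝ => z + t • v) := by fun_prop
    have : z + (0:ℝ) • v ∈ U := by simpa using hz
    exact hc.continuousAt.eventually (hU.mem_nhds this)
  filter_upwards [h3] with t ht
  rw [dg_def, hM _ j ht hj.le v]

open H312Gat in
theorem general {p : ℝ≥0∞} [Fact (1 ≤ p)] (hpt : p ≠ ⊤) (hp : ∀ k : ℕ, p.toReal ≠ 2 * k) {n : ℕ}
    (hn : p.toReal < n) : ¬ ∃ N : ell p → ℝ, IsEquivNorm N ∧ GateauxDiffOn n N {0}ᶜ := by
  rintro ⟨N, hN, hG⟩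
  have : Fact (p ≠ ⊤) := ⟨hpt⟩
  obtain ⟨M, hM⟩ := lineDerivs_of isOpen_compl_singleton hG
  obtain ⟨c, C, hc, hC, hcC⟩ := hN.equiv
  exact no_norm_derivs hp hn hN.add_le hN.smul hc hcC M hM

/-- For every real `p ≥ 1` that is not an even integer and every integer `n > p`, no equivalent
norm on `ℓ_p` is `n` times Gateaux differentiable off the origin. -/
theorem result (p : ℝ≥0∞) [Fact (1 ≤ p)] (hp : p ≠ ⊤) (heven : ∀ k : ℕ, p.toReal ≠ 2 * k)
    (n : ℕ) (hn : p.toReal < n) :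
    ¬ ∃ N : ell p → ℝ, IsEquivNorm N ∧ GateauxDiffOn n N {0}ᶜ :=
  general hp heven hn

end Pool.Agent.Results.MP_290f58_an.NoHigherGateaux
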